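import Pool.Agent.H95SD.GC7

/-!
# The Good-Churchhouse asymptotic formula for almost all Dirichlet characters

For a Dirichlet character `χ` modulo `q` let `M_χ(x; H)` be the sum of `μ(n) χ(n)` over `|n - x| < H/2` and
`V_χ(X; H) = (1/X) ∫_X^{2X} |M_χ(x; H)|² dx`. We show, without any hypothesis, that for every large `q`, for all
the characters modulo `q` but at most `φ(q) q^(-c)` of them, the formula of Good and Churchhouse
`V_χ(X; H) ∼ (H / ζ(2)) ∏_{p ∣ q} p / (p + 1)` holds with a relative error at most a power of `X`, at all the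
positions `q^η ≤ X ≤ q^A` and all the lengths `X^ε ≤ H ≤ X^(1-ε)`, `H ≤ q^(1/2-ε)` at the same time.

* the expansion of the square and the second moment of the deviation over the family (`GC1.lean`);
* the diagonal terms, and a maximal function for the sums over all the intervals (`GC2.lean`);
* from a net of positions and lengths to all of them (`GC3.lean`), and the union bound (`GC4.lean`);
* the correlations of order four: `n₁ m₂ ≡ n₂ m₁ (mod q)` with `0 < |n₁ - m₁| < H` and `0 < |n₂ - m₂| < H` is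
  the condition `n₁ k ≡ h n₂`, which has few solutions by the divisor bound (`GC5.lean`);
* the number of the squarefree integers prime to `q` (`SqC.lean`).
-/

set_option autoImplicit false

open MeasureTheory

namespace Pool.Agent.Results.MP_0575cc_nt.AlmostAllCharacters

/-- `M_χ(x; H)`, the sum of `μ(n) χ(n)` over the `n ≥ 1` with `|n - x| < H / 2` (the term `n = 0` is `0`) -/
noncomputable def M {q : ℕ} (χ : DirichletCharacter ℂ q) (x H : ℝ) : ℂ :=
  ∑ n ∈ (Finset.range (⌈x + H⌉₊ + 1)).filter (fun n : ℕ => |(n : ℝ) - x| < H / 2),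
    ((ArithmeticFunction.moebius n : ℤ) : ℂ) * χ n

/-- `V_χ(X; H)`, the mean of `|M_χ(x; H)|²` over `X ≤ x ≤ 2X` -/
noncomputable def V {q : ℕ} (χ : DirichletCharacter ℂ q) (X H : ℝ) : ℝ :=
  (1 / X) * ∫ x in X..2 * X, ‖M χ x H‖ ^ 2

/-- For all `ε, η, A > 0` there are `c > 0` and `q₀` such that for all `q ≥ q₀`, for all the Dirichlet characters
`χ` modulo `q` but at most `φ(q) / q^c` of them, `V_χ(X; H)` differs from `(H / ζ(2)) ∏_{p ∣ q} p / (p + 1)` by at
most `H / X^c` for all real `X` and `H` with `q^η ≤ X ≤ q^A`, `X^ε ≤ H ≤ X^(1-ε)` and `H ≤ q^(1/2-ε)`. -/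
theorem result (ε η A : ℝ) (hε : 0 < ε) (hη : 0 < η) (_hA : 0 < A) :
    ∃ c : ℝ, 0 < c ∧ ∃ q₀ : ℕ, ∀ q : ℕ, q₀ ≤ q → ∃ E : Finset (DirichletCharacter ℂ q),
      (E.card : ℝ) ≤ q.totient / (q : ℝ) ^ c ∧
      ∀ χ : DirichletCharacter ℂ q, χ ∉ E → ∀ X H : ℝ, (q : ℝ) ^ η ≤ X → X ≤ (q : ℝ) ^ A →
        X ^ ε ≤ H → H ≤ X ^ (1 - ε) → H ≤ (q : ℝ) ^ (1 / 2 - ε) →
        |V χ X H - H / (Real.pi ^ 2 / 6) * ∏ p ∈ q.primeFactors, ((p : ℝ) / (p + 1))| ≤ H / X ^ c := by
  obtain ⟨c, hc, q₀, h⟩ := Pool.Agent.H95SD.GC.chars_main (ε := min ε (1 / 4)) (η := min η 1) (A := max A 1)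
    (lt_min hε (by norm_num)) (min_le_right _ _) (lt_min hη one_pos) (min_le_right _ _) (le_max_right _ _)
  refine ⟨c, hc, max q₀ 2, fun q hq => ?_⟩
  obtain ⟨E, hE, h2⟩ := h q ((le_max_left _ _).trans hq)
  have hq2 : 2 ≤ q := (le_max_right _ _).trans hq
  have hq1 : (1 : ℝ) ≤ q := by exact_mod_cast (by omega : 1 ≤ q)
  refine ⟨E, hE, fun χ hχ X H hX1 hX2 hH1 hH2 hH3 => ?_⟩
  have hX : 1 ≤ X := (Real.one_le_rpow hq1 hη.le).trans hX1
  have hX0 : 0 < X := by linarith
  have hm : min ε (1 / 4) ≤ ε := min_le_left _ _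
  have h3 := h2 χ hχ X H
    ((Real.rpow_le_rpow_of_exponent_le hq1 (min_le_left _ _)).trans hX1)
    (hX2.trans (Real.rpow_le_rpow_of_exponent_le hq1 (le_max_left _ _)))
    ((Real.rpow_le_rpow_of_exponent_le hX hm).trans hH1)
    (hH2.trans (Real.rpow_le_rpow_of_exponent_le hX (by linarith)))
    (hH3.trans (Real.rpow_le_rpow_of_exponent_le hq1 (by linarith)))
  have hV : V χ X H = Pool.Agent.H95SD.GC.G (Pool.Agent.H95SD.GC.ac q χ) X (2 * X) H / X := by
    rw [div_eq_inv_mul, ← one_div]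
    rfl
  have e : V χ X H - H / (Real.pi ^ 2 / 6) * ∏ p ∈ q.primeFactors, ((p : ℝ) / (p + 1)) =
      (Pool.Agent.H95SD.GC.G (Pool.Agent.H95SD.GC.ac q χ) X (2 * X) H - Pool.Agent.H95SD.SqC.kap q * X * H) / X := by
    rw [hV, Pool.Agent.H95SD.SqC.kap_eq (by omega : 0 < q)]
    field_simp
  rw [e, abs_div, abs_of_pos hX0, div_le_iff₀ hX0]
  refine h3.trans (le_of_eq ?_)
  ring

end Pool.Agent.Results.MP_0575cc_nt.AlmostAllCharacters
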