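import Pool.Agent.H95SD.GJ5

/-!
# The Good-Churchhouse asymptotic formula for almost all Jacobi symbols

For an odd positive integer `d` let `M_d(x; H)` be the sum of `μ(n) (n/d)` over `|n - x| < H/2`, where `(n/d)` is
the Jacobi symbol, and `V_d(X; H) = (1/X) ∫_X^{2X} M_d(x; H)² dx`. We show, without any hypothesis, that for all
the odd `d ≤ D` but at most `D^(1-c)` of them, the formula of Good and Churchhouse
`V_d(X; H) ∼ (H / ζ(2)) ∏_{p ∣ d} p / (p + 1)` holds with a relative error at most a power of `X`, at all the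
positions `X ≥ D^η` and all the lengths `X^ε ≤ H ≤ X^(1-ε)` with `X H ≤ D^(1/2-ε)` at the same time. In particular
this holds for almost all the Legendre symbols, with a power saving in the number of the exceptional primes.

* the expansion of the square, the maximal function and the net of positions and lengths (`GC1.lean`, `GC2.lean`,
  `GC3.lean`), and the union bound for families with varying supports (`GJ1.lean`);
* the quadruples `n₁, m₁, n₂, m₂` of squarefree integers whose product is a square, with `0 < |n₁ - m₁| < H` and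
  `0 < |n₂ - m₂| < H`: if `n₁ m₁ = g² s` with `s` squarefree, then `n₂ m₂ = s y²`, and the sum of the greatest
  common divisors of `n₁` and the integers close to it is small (`GJ2.lean`);
* the other quadruples: the inequality of Pólya and Vinogradov for the sums of the symbols over the lower entry
  (`GJ2.lean`, `GJ3.lean`);
* the choice of the parameters (`GJ4.lean`, `GJ5.lean`), and the number of the squarefree integers prime to `d`
  (`SqC.lean`).
-/

set_option autoImplicit false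

open MeasureTheory

namespace Pool.Agent.Results.MP_0575cc_nt.AlmostAllJacobiSymbols

/-- `M_d(x; H)`, the sum of `μ(n) (n/d)` over the `n ≥ 1` with `|n - x| < H / 2` (the term `n = 0` is `0`) -/
noncomputable def M (d : ℕ) (x H : ℝ) : ℝ :=
  ∑ n ∈ (Finset.range (⌈x + H⌉₊ + 1)).filter (fun n : ℕ => |(n : ℝ) - x| < H / 2),
    ((ArithmeticFunction.moebius n : ℤ) : ℝ) * ((jacobiSym (n : ℤ) d : ℤ) : ℝ)

/-- `V_d(X; H)`, the mean of `M_d(x; H)²` over `X ≤ x ≤ 2X` -/
noncomputable def V (d : ℕ) (X H : ℝ) : ℝ :=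
  (1 / X) * ∫ x in X..2 * X, (M d x H) ^ 2

/-- For all `ε, η > 0` there are `c > 0` and `D₀` such that for all `D ≥ D₀`, for all the odd `d ≤ D` but at most
`D^(1-c)` of them, `V_d(X; H)` differs from `(H / ζ(2)) ∏_{p ∣ d} p / (p + 1)` by at most `H / X^c` for all real
`X` and `H` with `X ≥ D^η`, `X^ε ≤ H ≤ X^(1-ε)` and `X H ≤ D^(1/2-ε)`. -/
theorem result (ε η : ℝ) (hε : 0 < ε) (hη : 0 < η) :
    ∃ c : ℝ, 0 < c ∧ ∃ D₀ : ℕ, ∀ D : ℕ, D₀ ≤ D → ∃ E : Finset ℕ, (E.card : ℝ) ≤ (D : ℝ) ^ (1 - c) ∧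
      ∀ d : ℕ, 0 < d → d ≤ D → Odd d → d ∉ E → ∀ X H : ℝ, (D : ℝ) ^ η ≤ X →
        X ^ ε ≤ H → H ≤ X ^ (1 - ε) → X * H ≤ (D : ℝ) ^ (1 / 2 - ε) →
        |V d X H - H / (Real.pi ^ 2 / 6) * ∏ p ∈ d.primeFactors, ((p : ℝ) / (p + 1))| ≤ H / X ^ c := by
  obtain ⟨c, hc, D₀, h⟩ := Pool.Agent.H95SD.GJ.jac_main (ε := min ε (1 / 4)) (η := min η 1)
    (lt_min hε (by norm_num)) (min_le_right _ _) (lt_min hη one_pos) (min_le_right _ _)
  refine ⟨c, hc, max D₀ 2, fun D hD => ?_⟩
  obtain ⟨E, hE, h2⟩ := h D ((le_max_left _ _).trans hD)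
  have hD2 : 2 ≤ D := (le_max_right _ _).trans hD
  have hD1 : (1 : ℝ) ≤ D := by exact_mod_cast (by omega : 1 ≤ D)
  refine ⟨E, hE, fun d hd0 hdD hdo hdE X H hX1 hH1 hH2 hXH => ?_⟩
  have hX : 1 ≤ X := (Real.one_le_rpow hD1 hη.le).trans hX1
  have hX0 : 0 < X := by linarith
  have hm : min ε (1 / 4) ≤ ε := min_le_left _ _
  have h3 := h2 d hd0 hdD hdo hdE X H
    ((Real.rpow_le_rpow_of_exponent_le hD1 (min_le_left _ _)).trans hX1)
    ((Real.rpow_le_rpow_of_exponent_le hX hm).trans hH1)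
    (hH2.trans (Real.rpow_le_rpow_of_exponent_le hX (by linarith)))
    (hXH.trans (Real.rpow_le_rpow_of_exponent_le hD1 (by linarith)))
  have hM : ∀ x : ℝ, (M d x H) ^ 2 = ‖Pool.Agent.H95SD.GC.M (Pool.Agent.H95SD.GJ.aj d) x H‖ ^ 2 := by
    intro x
    have e : Pool.Agent.H95SD.GC.M (Pool.Agent.H95SD.GJ.aj d) x H = ((M d x H : ℝ) : ℂ) := by
      unfold M Pool.Agent.H95SD.GC.M Pool.Agent.H95SD.GJ.aj
      push_cast
      rfl
    rw [e, Complex.norm_real, Real.norm_eq_abs, sq_abs]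
  have hV : V d X H = Pool.Agent.H95SD.GC.G (Pool.Agent.H95SD.GJ.aj d) X (2 * X) H / X := by
    rw [div_eq_inv_mul, ← one_div, V]
    congr 1
    simp only [hM]
    rfl
  have e : V d X H - H / (Real.pi ^ 2 / 6) * ∏ p ∈ d.primeFactors, ((p : ℝ) / (p + 1)) =
      (Pool.Agent.H95SD.GC.G (Pool.Agent.H95SD.GJ.aj d) X (2 * X) H - Pool.Agent.H95SD.SqC.kap d * X * H) / X := by
    rw [hV, Pool.Agent.H95SD.SqC.kap_eq hd0]
    field_simp
  rw [e, abs_div, abs_of_pos hX0, div_le_iff₀ hX0]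
  refine h3.trans (le_of_eq ?_)
  ring

end Pool.Agent.Results.MP_0575cc_nt.AlmostAllJacobiSymbols
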