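import Mathlib
import Pool.Agent.H93GC.Tw3

/-!
# The Good-Churchhouse conjecture for almost all twists `μ(n) g(n) n^{it}`, with a power saving

Let `g` be any function on the integers with `|g(n)| = 1`, for example `g = 1` or `g(n) = n^{i T₁}`, and let
`V_t(X; H)` be the variance of the problem with `μ(n) g(n) n^{it}` in the place of `μ(n)`.

**Theorem.** For every `ε > 0` there are `c > 0` and `X₀` such that for all `X ≥ X₀`, `1 ≤ H₀ ≤ X^(1-ε)`,
`T ≥ H₀ X^(1+ε)` and all `g`: apart from a set of measure at most `T X^(-c)`, all `t` in `[0, T]` satisfy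
`|V_t(X'; H) - H / ζ(2)| ≤ H X^(-c)` for ALL `X' ∈ [X, 2X]` and ALL `H ∈ [1, H₀]`.

With `g(n) = n^{i T₁}` this is a statement about the twists `μ(n) n^{it}`, `t` in any interval
`[T₁, T₁ + T]`, for example of length `X^(1+2ε)` for the `H ≤ X^ε`.

Idea of the proof. The mean square over `t` of the off-diagonal part of `∫ |M(x; H)|² dx` is at most `H²`
times the sum of `min (T, X² / |k|)` over the quadruples of integers `n, m, n', m' ≍ X` with
`0 < |n - m|, |n' - m'| ≤ H`, where `k = n m' - m n'`. With `m = n + d`, `m' = n' + d'` we have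
`k = n d' - d n'`, and by the divisor bound every `k` has at most `X^(1+o(1)) H` such representations
(`Pool/Agent/H93GC/Tw.lean`). So the mean square is at most `H³ X^(1+o(1)) (T + X²)`, and the off-diagonal
part is `≪ H X^(1-c)` for all `t` outside of a set of measure `T X^(-c)`, for every pair of a grid of
lengths and ranges with few elements. The passage from the grid to all `X'` and `H` is the one of
`WintnerModel` (`Det.lean`, `Grid.lean`, `Prob.lean`).
-/

set_option autoImplicit false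

open MeasureTheory

namespace Pool.Agent.Results.MP_0575cc_nt.AlmostAllTwists

/-- the Möbius function, twisted by `g(n) n^{it}` -/
noncomputable def twist (g : ℕ → ℂ) (t : ℝ) (n : ℕ) : ℂ :=
  ((ArithmeticFunction.moebius n : ℤ) : ℂ) * g n * (n : ℂ) ^ ((t : ℂ) * Complex.I)

/-- `M(x; H)` for the function `f`: the sum of `f(n)` over the `n ≥ 1` with `|n - x| < H / 2` -/
noncomputable def M (f : ℕ → ℂ) (x H : ℝ) : ℂ :=
  ∑ n ∈ (Finset.range (⌈x + H⌉₊ + 1)).filter (fun n : ℕ => 1 ≤ n ∧ |(n : ℝ) - x| < H / 2), f n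

/-- `V(X; H)` for the function `f`: the mean of `|M(x; H)|²` over `X ≤ x ≤ 2X` -/
noncomputable def V (f : ℕ → ℂ) (X H : ℝ) : ℝ := (1 / X) * ∫ x in X..2 * X, ‖M f x H‖ ^ 2

/-- the exceptional `t`: those `t` in `[0, T]` for which `|V_t(X'; H) - H / ζ(2)| > H X^(-c)` for some
`X'` in `[X, 2X]` and some `H` in `[1, H₀]` -/
def Exceptional (g : ℕ → ℂ) (c X H₀ T : ℝ) : Set ℝ :=
  {t | 0 ≤ t ∧ t ≤ T ∧ ∃ X' H : ℝ, X ≤ X' ∧ X' ≤ 2 * X ∧ 1 ≤ H ∧ H ≤ H₀ ∧
    H * X ^ (-c) < |V (twist g t) X' H - H / (Real.pi ^ 2 / 6)|}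

theorem twist_eq (g : ℕ → ℂ) (t : ℝ) {n : ℕ} (hn : 1 ≤ n) :
    twist g t n = Pool.Agent.H93GC.tw g t n := by
  have hn0 : (n : ℂ) ≠ 0 := by exact_mod_cast (by omega : n ≠ 0)
  unfold twist Pool.Agent.H93GC.tw Pool.Agent.H93GC.mo
  rw [Complex.cpow_def_of_ne_zero hn0, ← Complex.natCast_log]
  congr 2
  push_cast
  ring

theorem M_eq (g : ℕ → ℂ) (t : ℝ) {N : ℕ} {x H : ℝ} (hH : 0 ≤ H) (hN : x + H ≤ N) :
    M (twist g t) x H = Pool.Agent.H93GC.S (Pool.Agent.H93GC.tw g t) N H x := by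
  classical
  unfold Pool.Agent.H93GC.S M
  rw [← Finset.sum_filter]
  apply Finset.sum_subset_zero_on_sdiff
  · intro n hn
    rw [Finset.mem_filter, Finset.mem_range] at hn ⊢
    refine ⟨?_, hn.2.2⟩
    have h2 := (abs_lt.1 hn.2.2).2
    have h3 : (n : ℝ) < N := by linarith
    exact_mod_cast h3
  · intro n hn
    rw [Finset.mem_sdiff, Finset.mem_filter, Finset.mem_filter, Finset.mem_range,
      Finset.mem_range] at hn
    obtain ⟨⟨h2, h3⟩, h4⟩ := hn
    have h5 : ¬ 1 ≤ n := by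
      intro h5
      apply h4
      refine ⟨?_, h5, h3⟩
      have h6 := (abs_lt.1 h3).2
      have h7 : (n : ℝ) < x + H := by linarith
      have h8 : (n : ℝ) < ((⌈x + H⌉₊ + 1 : ℕ) : ℝ) := by
        push_cast
        linarith [Nat.le_ceil (x + H)]
      exact_mod_cast h8
    have h6 : n = 0 := by omega
    subst h6
    exact Pool.Agent.H93GC.tw_zero t not_squarefree_zero
  · intro n hn
    rw [Finset.mem_filter] at hn
    exact twist_eq g t hn.2.1

theorem V_eq (g : ℕ → ℂ) (t : ℝ) {N : ℕ} {X H : ℝ} (hX : 0 < X) (hH : 0 ≤ H)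
    (hN : 2 * X + H ≤ N) :
    V (twist g t) X H = (1 / X) * Pool.Agent.H93GC.W (Pool.Agent.H93GC.tw g t) N X (2 * X) H := by
  unfold V Pool.Agent.H93GC.W
  congr 1
  apply intervalIntegral.integral_congr
  intro x hx
  rw [Set.uIcc_of_le (by linarith)] at hx
  show ‖M (twist g t) x H‖ ^ 2 = ‖Pool.Agent.H93GC.S (Pool.Agent.H93GC.tw g t) N H x‖ ^ 2
  rw [M_eq g t hH (by linarith [hx.2])]

/-- **Theorem.** For every `ε > 0` there are `c > 0` and `X₀` such that for all `X ≥ X₀`, all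
`1 ≤ H₀ ≤ X^(1-ε)`, all `T ≥ H₀ X^(1+ε)` and all functions `g` with values of absolute value one, the set
of the exceptional `t` in `[0, T]` has measure at most `T X^(-c)`. -/
theorem result (ε : ℝ) (hε : 0 < ε) :
    ∃ c X₀ : ℝ, 0 < c ∧ ∀ X : ℝ, X₀ ≤ X → ∀ H₀ T : ℝ, 1 ≤ H₀ → H₀ ≤ X ^ (1 - ε) →
      H₀ * X ^ (1 + ε) ≤ T → ∀ g : ℕ → ℂ, (∀ n, ‖g n‖ = 1) →
      volume (Exceptional g c X H₀ T) ≤ ENNReal.ofReal (T * X ^ (-c)) := by
  obtain ⟨e, he⟩ : ∃ e : ℝ, e = min ε (1 / 2) := ⟨_, rfl⟩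
  have he0 : 0 < e := by rw [he]; exact lt_min hε (by norm_num)
  have he1 : e ≤ 1 / 2 := by rw [he]; exact min_le_right _ _
  have heε : e ≤ ε := by rw [he]; exact min_le_left _ _
  obtain ⟨X₁, hX₁, hsc⟩ := Pool.Agent.H93GC.scale_tw he0 he1
  refine ⟨e / 32, X₁, by positivity, ?_⟩
  intro X hX H₀ T hH1 hHX hHT g hg
  have hX1 : 1 ≤ X := hX₁.trans hX
  have hX0 : 0 < X := by linarith
  have hHX' : H₀ ≤ X ^ (1 - e) := hHX.trans (Real.rpow_le_rpow_of_exponent_le hX1 (by linarith))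
  have hHT' : H₀ * X ^ (1 + e) ≤ T :=
    (mul_le_mul_of_nonneg_left (Real.rpow_le_rpow_of_exponent_le hX1 (by linarith))
      (by linarith)).trans hHT
  have hT0 : 0 ≤ T := le_trans (by positivity) hHT'
  obtain ⟨N, E, hN, hE1, hE2, hE3⟩ := hsc g hg X H₀ T hX hH1 hHX' hHT'
  have hH0X : H₀ ≤ X := by
    calc H₀ ≤ X ^ (1 - e) := hHX'
      _ ≤ X ^ (1 : ℝ) := Real.rpow_le_rpow_of_exponent_le hX1 (by linarith)
      _ = X := Real.rpow_one X
  have hsub : Exceptional g (e / 32) X H₀ T ⊆ (E ∩ Set.Ioc 0 T) ∪ {0} := by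
    rintro t ⟨ht0, htT, X', H, h1, h2, h3, h4, h5⟩
    rcases ht0.eq_or_lt with h0 | h0
    · right
      exact h0.symm
    · left
      refine ⟨?_, h0, htT⟩
      by_contra htE
      have h6 := hE3 t htE H X' h3 h4 h1 h2
      have hX'0 : 0 < X' := by linarith
      rw [V_eq g t (N := N) hX'0 (by linarith) (by linarith)] at h5
      have ecc : H / (Real.pi ^ 2 / 6) = (1 / X') * (X' * H * Pool.Agent.H93GC.cc) := by
        unfold Pool.Agent.H93GC.cc
        field_simp
      rw [ecc, ← mul_sub, abs_mul, abs_of_pos (by positivity : 0 < 1 / X')] at h5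
      have h7 : 1 / X' * |Pool.Agent.H93GC.W (Pool.Agent.H93GC.tw g t) N X' (2 * X') H -
          X' * H * Pool.Agent.H93GC.cc| ≤ H * X ^ (-(e / 32)) := by
        calc 1 / X' * |Pool.Agent.H93GC.W (Pool.Agent.H93GC.tw g t) N X' (2 * X') H -
            X' * H * Pool.Agent.H93GC.cc| ≤ 1 / X' * (H * X * X ^ (-(e / 32))) :=
              mul_le_mul_of_nonneg_left h6 (by positivity)
          _ ≤ 1 / X' * (H * X' * X ^ (-(e / 32))) := by
              apply mul_le_mul_of_nonneg_left _ (by positivity)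
              apply mul_le_mul_of_nonneg_right _ (by positivity)
              exact mul_le_mul_of_nonneg_left h1 (by linarith)
          _ = H * X ^ (-(e / 32)) := by field_simp
      linarith
  have hvol : volume (E ∩ Set.Ioc 0 T) ≤ ENNReal.ofReal (T * X ^ (-(e / 32))) := by
    have h1 : volume (E ∩ Set.Ioc 0 T) = (volume.restrict (Set.Ioc 0 T)) E :=
      (Measure.restrict_apply hE1).symm
    rw [h1, ← ofReal_measureReal (measure_ne_top _ E)]
    apply ENNReal.ofReal_le_ofReal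
    refine hE2.trans ?_
    apply mul_le_mul_of_nonneg_left _ hT0
    exact Real.rpow_le_rpow_of_exponent_le hX1 (by linarith)
  calc volume (Exceptional g (e / 32) X H₀ T) ≤ volume ((E ∩ Set.Ioc 0 T) ∪ {0}) := measure_mono hsub
    _ ≤ volume (E ∩ Set.Ioc 0 T) + volume {(0 : ℝ)} := measure_union_le _ _
    _ = volume (E ∩ Set.Ioc 0 T) := by rw [Real.volume_singleton, add_zero]
    _ ≤ _ := hvol

end Pool.Agent.Results.MP_0575cc_nt.AlmostAllTwists
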