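import Mathlib
import Pool.Agent.H93GC.Wint

/-!
# The Good-Churchhouse conjecture in Wintner's model of the Möbius function, with a power saving

In Wintner's model the Möbius function is replaced by a random multiplicative function `f`, supported on
the squarefree integers, whose values `f(p)` at the primes are independent random signs.

**Theorem.** For every `ε > 0` there is `c > 0` such that almost surely there is `X₀` such that
`|V(X; H) - H / ζ(2)| ≤ H X^(-c)` for ALL `X ≥ X₀` and ALL `1 ≤ H ≤ X^(1-ε)` (the variance of the problem,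
with `f` in the place of `μ`).

So almost every random multiplicative function has the property which the conjecture predicts for `μ`, and
more: it holds with a power saving, uniformly in `H`, down to the trivial range of bounded `H`.

Idea of the proof. The diagonal part of `∫ |M(x; H)|² dx` is evaluated by counting squarefree integers
(`Pool/Agent/H93GC/Win.lean`, `Sqf.lean`). The mean square of the off-diagonal part is at most `H²` times
the number of the `(n, m, n', m')` of squarefree integers `≍ X` with `0 < |n - m|, |n' - m'| ≤ H` such that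
`n m n' m'` is a square. Such quadruples have `n m = g² s`, `n' m' = g'² s` with the same squarefree `s`,
and their number is `≪ X^(1+o(1)) H`, because `g = gcd(n, m)` divides `n - m` (`Cnt.lean`). So the
off-diagonal part is `≪ H X^(1-c)` with probability `1 - O(X^(-c))` for every pair of a grid of lengths
and ranges with few elements. The passage from the grid to all `X` and `H` (`Det.lean`, `Grid.lean`) uses
the monotonicity in the range of integration, and, for the lengths, a bound of the mean square over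
windows of ALL lengths `h ≤ X^(1-ε)` by `O(h X)`, obtained by splitting a window into windows whose lengths
are powers of two. The theorem follows by the lemma of Borel and Cantelli.
-/

set_option autoImplicit false

open MeasureTheory ProbabilityTheory

namespace Pool.Agent.Results.MP_0575cc_nt.WintnerModel

/-- `ξ 0, ξ 1, ...` are independent random variables with values `1` and `-1` and mean `0` (fair
random signs) -/
structure RandomSigns {Ω : Type} [MeasurableSpace Ω] (P : Measure Ω) (ξ : ℕ → Ω → ℝ) : Prop where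
  measurable : ∀ n, Measurable (ξ n)
  independent : iIndepFun ξ P
  sign : ∀ n ω, ξ n ω = 1 ∨ ξ n ω = -1
  mean_zero : ∀ n, ∫ ω, ξ n ω ∂P = 0

/-- The random multiplicative function: `f(n)` is the product of the `ξ p` over the primes `p` dividing
`n` if `n` is squarefree, and `0` otherwise. -/
noncomputable def wintner {Ω : Type} (ξ : ℕ → Ω → ℝ) (ω : Ω) (n : ℕ) : ℝ :=
  if Squarefree n then ∏ p ∈ n.primeFactors, ξ p ω else 0

/-- `M(x; H)` for the function `f`: the sum of `f(n)` over the `n ≥ 1` with `|n - x| < H / 2` -/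
noncomputable def M (f : ℕ → ℝ) (x H : ℝ) : ℝ :=
  ∑ n ∈ (Finset.range (⌈x + H⌉₊ + 1)).filter (fun n : ℕ => 1 ≤ n ∧ |(n : ℝ) - x| < H / 2), f n

/-- `V(X; H)` for the function `f`: the mean of `M(x; H)²` over `X ≤ x ≤ 2X` -/
noncomputable def V (f : ℕ → ℝ) (X H : ℝ) : ℝ := (1 / X) * ∫ x in X..2 * X, M f x H ^ 2

theorem rad {Ω : Type} [MeasurableSpace Ω] {P : Measure Ω} {ξ : ℕ → Ω → ℝ} (h : RandomSigns P ξ) :
    Pool.Agent.H93GC.Rad P ξ :=
  ⟨h.measurable, h.independent, h.sign, h.mean_zero⟩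

theorem M_eq {Ω : Type} (ξ : ℕ → Ω → ℝ) (ω : Ω) {N : ℕ} {x H : ℝ} (hx : 0 ≤ x) (hH : 0 ≤ H)
    (hN : x + H ≤ N) :
    M (wintner ξ ω) x H ^ 2 = ‖Pool.Agent.H93GC.S (Pool.Agent.H93GC.fc ξ ω) N H x‖ ^ 2 := by
  classical
  have h1 : Pool.Agent.H93GC.S (Pool.Agent.H93GC.fc ξ ω) N H x = ((M (wintner ξ ω) x H : ℝ) : ℂ) := by
    unfold Pool.Agent.H93GC.S M Pool.Agent.H93GC.fc
    push_cast
    rw [← Finset.sum_filter]
    symm
    apply Finset.sum_subset_zero_on_sdiff
    · intro n hn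
      rw [Finset.mem_filter, Finset.mem_range] at hn ⊢
      refine ⟨?_, hn.2.2⟩
      have h2 := (abs_lt.1 hn.2.2).2
      have h3 : (n : ℝ) < N := by linarith
      exact_mod_cast h3
    · intro n hn
      rw [Finset.mem_sdiff, Finset.mem_filter, Finset.mem_filter, Finset.mem_range,
        Finset.mem_range] at hn
      obtain ⟨⟨h2, h3⟩, h4⟩ := hn
      have h5 : ¬ 1 ≤ n := by
        intro h5
        apply h4
        refine ⟨?_, h5, h3⟩
        have h6 := (abs_lt.1 h3).2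
        have h7 : (n : ℝ) < x + H := by linarith
        have h8 : (n : ℝ) < ((⌈x + H⌉₊ + 1 : ℕ) : ℝ) := by
          push_cast
          linarith [Nat.le_ceil (x + H)]
        exact_mod_cast h8
      have h6 : n = 0 := by omega
      subst h6
      unfold Pool.Agent.H93GC.ff
      rw [if_neg not_squarefree_zero, Complex.ofReal_zero]
    · intro n _
      rfl
  rw [h1, Complex.norm_real, Real.norm_eq_abs, sq_abs]

theorem V_eq {Ω : Type} (ξ : ℕ → Ω → ℝ) (ω : Ω) {N : ℕ} {X H : ℝ} (hX : 0 < X) (hH : 0 ≤ H)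
    (hN : 2 * X + H ≤ N) :
    V (wintner ξ ω) X H = (1 / X) * Pool.Agent.H93GC.W (Pool.Agent.H93GC.fc ξ ω) N X (2 * X) H := by
  unfold V Pool.Agent.H93GC.W
  congr 1
  apply intervalIntegral.integral_congr
  intro x hx
  rw [Set.uIcc_of_le (by linarith)] at hx
  exact M_eq ξ ω (by linarith [hx.1]) hH (by linarith [hx.2])

/-- **Theorem.** For every `ε > 0` there is `c > 0` such that for a random multiplicative function `f`
(Wintner's model) almost surely `|V(X; H) - H / ζ(2)| ≤ H X^(-c)` for all large `X` and all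
`1 ≤ H ≤ X^(1-ε)`. -/
theorem result (ε : ℝ) (hε : 0 < ε) :
    ∃ c : ℝ, 0 < c ∧ ∀ (Ω : Type) [MeasurableSpace Ω] (P : Measure Ω) [IsProbabilityMeasure P]
      (ξ : ℕ → Ω → ℝ), RandomSigns P ξ → ∀ᵐ ω ∂P, ∃ X₀ : ℝ, ∀ X : ℝ, X₀ ≤ X →
        ∀ H : ℝ, 1 ≤ H → H ≤ X ^ (1 - ε) →
          |V (wintner ξ ω) X H - H / (Real.pi ^ 2 / 6)| ≤ H * X ^ (-c) := by
  obtain ⟨e, he⟩ : ∃ e : ℝ, e = min ε (1 / 2) := ⟨_, rfl⟩
  have he0 : 0 < e := by rw [he]; exact lt_min hε (by norm_num)
  have he1 : e ≤ 1 / 2 := by rw [he]; exact min_le_right _ _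
  have heε : e ≤ ε := by rw [he]; exact min_le_left _ _
  obtain ⟨A, k₁, hA, hsc⟩ := Pool.Agent.H93GC.scales he0 he1
  refine ⟨e / 32, by positivity, ?_⟩
  intro Ω _ P _ ξ hξ
  have hr := rad hξ
  have hs := hsc hr
  obtain ⟨E, hE⟩ : ∃ E : ℕ → Set Ω, ∀ k : ℕ,
      P.real (E k) ≤ A * (k + 2) * ((2 : ℝ) ^ (-(e / 4))) ^ k ∧ (k₁ ≤ k →
      ∀ ω ∉ E k, ∀ H X' : ℝ, 1 ≤ H → H ≤ 2 * ((2 : ℝ) ^ k) ^ (1 - e) → (2 : ℝ) ^ k ≤ X' →
        X' ≤ 2 * (2 : ℝ) ^ k →
        |Pool.Agent.H93GC.W (Pool.Agent.H93GC.fc ξ ω) (9 * 2 ^ k + 1) X' (2 * X') H -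
          X' * H * Pool.Agent.H93GC.cc| ≤
          29000 * ((2 : ℝ) ^ k) ^ (-(e / 16)) * H * (2 : ℝ) ^ k) := by
    have h1 : ∀ k : ℕ, ∃ Ek : Set Ω,
      P.real Ek ≤ A * (k + 2) * ((2 : ℝ) ^ (-(e / 4))) ^ k ∧ (k₁ ≤ k →
      ∀ ω ∉ Ek, ∀ H X' : ℝ, 1 ≤ H → H ≤ 2 * ((2 : ℝ) ^ k) ^ (1 - e) → (2 : ℝ) ^ k ≤ X' →
        X' ≤ 2 * (2 : ℝ) ^ k →
        |Pool.Agent.H93GC.W (Pool.Agent.H93GC.fc ξ ω) (9 * 2 ^ k + 1) X' (2 * X') H -
          X' * H * Pool.Agent.H93GC.cc| ≤
          29000 * ((2 : ℝ) ^ k) ^ (-(e / 16)) * H * (2 : ℝ) ^ k) := by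
      intro k
      by_cases hk : k₁ ≤ k
      · obtain ⟨Ek, -, h2, h3⟩ := hs k hk
        exact ⟨Ek, h2, fun _ => h3⟩
      · refine ⟨∅, ?_, fun h => absurd h hk⟩
        rw [measureReal_empty]
        positivity
    choose E hE using h1
    exact ⟨E, hE⟩
  have hsum : Summable fun k : ℕ => A * (k + 2) * ((2 : ℝ) ^ (-(e / 4))) ^ k := by
    have hr0 : 0 < (2 : ℝ) ^ (-(e / 4)) := by positivity
    have hr1 : (2 : ℝ) ^ (-(e / 4)) < 1 := Real.rpow_lt_one_of_one_lt_of_neg (by norm_num) (by linarith)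
    have hn : ‖(2 : ℝ) ^ (-(e / 4))‖ < 1 := by rwa [Real.norm_of_nonneg hr0.le]
    have h1 := summable_pow_mul_geometric_of_norm_lt_one 1 hn
    have h2 := summable_geometric_of_lt_one hr0.le hr1
    have h3 := (h1.mul_left A).add (h2.mul_left (2 * A))
    refine h3.congr fun k => ?_
    rw [pow_one]
    ring
  have hne : (∑' k, P (E k)) ≠ ⊤ := by
    refine ne_top_of_le_ne_top hsum.tsum_ofReal_ne_top (ENNReal.tsum_le_tsum fun k => ?_)
    rw [← ofReal_measureReal (measure_ne_top P (E k))]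
    exact ENNReal.ofReal_le_ofReal (hE k).1
  filter_upwards [ae_eventually_notMem hne] with ω hω
  obtain ⟨k₂, hk₂⟩ := Filter.eventually_atTop.1 hω
  obtain ⟨X₁, hX₁⟩ := Filter.eventually_atTop.1 (Pool.Agent.H93GC.par he0 he1)
  obtain ⟨X₂, hX₂⟩ := Filter.eventually_atTop.1
    (Pool.Agent.H93GC.ev_ge (e := e / 32) (by positivity) 58000)
  refine ⟨max (2 ^ (max k₁ k₂ + 1)) (max (2 * max X₁ 1) (max X₂ 1)), fun X hX H hH1 hH => ?_⟩
  have hXa : (2 : ℝ) ^ (max k₁ k₂ + 1) ≤ X := (le_max_left _ _).trans hX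
  have hXb : 2 * max X₁ 1 ≤ X := ((le_max_left _ _).trans (le_max_right _ _)).trans hX
  have hXc : X₂ ≤ X := (((le_max_left _ _).trans (le_max_right _ _)).trans (le_max_right _ _)).trans hX
  have hXd : 1 ≤ X := (((le_max_right _ _).trans (le_max_right _ _)).trans (le_max_right _ _)).trans hX
  have hX0 : 0 < X := by linarith
  obtain ⟨k, hk1, hk2⟩ := exists_nat_pow_near hXd (one_lt_two (α := ℝ))
  have hk3 : max k₁ k₂ ≤ k := by
    by_contra hcon
    push Not at hcon
    have h1 : (2 : ℝ) ^ (k + 1) ≤ 2 ^ (max k₁ k₂ + 1) := pow_le_pow_right₀ (by norm_num) (by omega)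
    linarith
  obtain ⟨Y, hY⟩ : ∃ Y : ℝ, Y = (2 : ℝ) ^ k := ⟨_, rfl⟩
  have hY2 : X < 2 * Y := by
    rw [hY]
    rw [pow_succ] at hk2
    linarith
  have hmain := (hE k).2 ((le_max_left _ _).trans hk3) ω (hk₂ k ((le_max_right _ _).trans hk3)) H X hH1
  rw [← hY] at hmain hk1
  have hY1 : X₁ ≤ Y := by
    have := le_max_left X₁ 1
    linarith
  have hpar := hX₁ Y hY1
  have hY0 : 0 < Y := by linarith [hpar.one]
  have hHe : H ≤ 2 * Y ^ (1 - e) := by
    calc H ≤ X ^ (1 - ε) := hH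
      _ ≤ X ^ (1 - e) := Real.rpow_le_rpow_of_exponent_le hXd (by linarith)
      _ ≤ (2 * Y) ^ (1 - e) := Real.rpow_le_rpow hX0.le hY2.le (by linarith)
      _ = 2 ^ (1 - e) * Y ^ (1 - e) := Real.mul_rpow (by norm_num) hY0.le
      _ ≤ 2 * Y ^ (1 - e) := by
          apply mul_le_mul_of_nonneg_right _ (by positivity)
          calc (2 : ℝ) ^ (1 - e) ≤ 2 ^ (1 : ℝ) :=
                Real.rpow_le_rpow_of_exponent_le (by norm_num) (by linarith)
            _ = 2 := Real.rpow_one 2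
  have hmain2 := hmain hHe hk1 hY2.le
  have hHm := hHe.trans hpar.Hm
  have hcast : ((9 * 2 ^ k + 1 : ℕ) : ℝ) = 9 * Y + 1 := by
    rw [hY]
    push_cast
    ring
  rw [V_eq ξ ω (N := 9 * 2 ^ k + 1) hX0 (by linarith) (by rw [hcast]; linarith)]
  have ecc : H / (Real.pi ^ 2 / 6) = (1 / X) * (X * H * Pool.Agent.H93GC.cc) := by
    unfold Pool.Agent.H93GC.cc
    field_simp
  rw [ecc, ← mul_sub, abs_mul, abs_of_pos (by positivity : 0 < 1 / X)]
  have hYX : Y ^ (-(e / 16)) ≤ 2 * X ^ (-(e / 16)) := by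
    have h1 : Y ^ (-(e / 16)) ≤ (X / 2) ^ (-(e / 16)) :=
      Real.rpow_le_rpow_of_nonpos (by positivity) (by linarith) (by linarith)
    have h2 : (X / 2) ^ (-(e / 16)) = X ^ (-(e / 16)) * 2 ^ (e / 16) := by
      rw [Real.div_rpow hX0.le (by norm_num), Real.rpow_neg (by norm_num : (0 : ℝ) ≤ 2), div_inv_eq_mul]
    have h3 : (2 : ℝ) ^ (e / 16) ≤ 2 := by
      calc (2 : ℝ) ^ (e / 16) ≤ 2 ^ (1 : ℝ) :=
            Real.rpow_le_rpow_of_exponent_le (by norm_num) (by linarith)
        _ = 2 := Real.rpow_one 2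
    calc Y ^ (-(e / 16)) ≤ (X / 2) ^ (-(e / 16)) := h1
      _ = X ^ (-(e / 16)) * 2 ^ (e / 16) := h2
      _ ≤ X ^ (-(e / 16)) * 2 := mul_le_mul_of_nonneg_left h3 (by positivity)
      _ = 2 * X ^ (-(e / 16)) := mul_comm _ _
  have hX32 : X ^ (-(e / 16)) * 58000 ≤ X ^ (-(e / 32)) := by
    have h1 : X ^ (-(e / 32)) = X ^ (-(e / 16)) * X ^ (e / 32) := by
      rw [← Real.rpow_add hX0]
      congr 1
      ring
    rw [h1]
    exact mul_le_mul_of_nonneg_left (hX₂ X hXc) (by positivity)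
  calc 1 / X * |Pool.Agent.H93GC.W (Pool.Agent.H93GC.fc ξ ω) (9 * 2 ^ k + 1) X (2 * X) H -
        X * H * Pool.Agent.H93GC.cc| ≤ 1 / X * (29000 * Y ^ (-(e / 16)) * H * Y) :=
        mul_le_mul_of_nonneg_left hmain2 (by positivity)
    _ ≤ 1 / X * (29000 * (2 * X ^ (-(e / 16))) * H * X) := by
        apply mul_le_mul_of_nonneg_left _ (by positivity)
        apply mul_le_mul _ hk1 hY0.le (by positivity)
        apply mul_le_mul_of_nonneg_right _ (by linarith)
        exact mul_le_mul_of_nonneg_left hYX (by norm_num)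
    _ = H * (X ^ (-(e / 16)) * 58000) := by
        field_simp
        ring
    _ ≤ H * X ^ (-(e / 32)) := mul_le_mul_of_nonneg_left hX32 (by linarith)

end Pool.Agent.Results.MP_0575cc_nt.WintnerModel
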